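import Pool.Agent.H34.CN.HK
import Pool.Agent.H31.CF.U3

/-!
# HKG: the Hecke operators on sums over vectors, with a weight (row UHKG)

The weight does not change on the sublattices of index `p`; the proof follows the one of `T_HK`
(`Pool.Agent.H34.CN.HK`).
-/

set_option autoImplicit false

open MeasureTheory Set Filter
open scoped Real Matrix MatrixGroups

namespace Pool.Agent.H69.CFU

open Pool.Agent.H31.CN Pool.Agent.H91.CF Pool.Agent.H31.CF Pool.Agent.H34.CN

/-- the terms of the sum -/
noncomputable def hkG (h : ℝ → ℝ) (κ : QF → ℤ × ℤ → ℝ) (l : List ℕ) (Q : QF) (v : ℤ × ℤ) : ℝ :=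
  hkH h l Q v * κ Q v

theorem pf_HKG (hHK1 : T_HK1) (hHK2 : T_HK2) (hHK3 : T_HK3) (hACT : T_ACT) : T_HKG := by
  intro Δ K c h κ l hΔ hc hh hκ
  induction l with
  | nil =>
    intro _ _ _ Q _
    refine tsum_congr fun v => ?_
    simp
  | cons p l ih =>
    intro hnd hpr hst Q hQ
    have hp : p.Prime := hpr p (by simp)
    have hp0 : (0 : ℤ) < p := by exact_mod_cast hp.pos
    have hpl : p ∉ l := (List.nodup_cons.1 hnd).1
    have hprl : ∀ q ∈ l, q.Prime := fun q hq => hpr q (List.mem_cons_of_mem _ hq)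
    have ih' := ih (List.nodup_cons.1 hnd).2 hprl
      (fun q hq => hst q (List.mem_cons_of_mem _ hq))
    have hstp := hst p (by simp)
    have hlp : (0 : ℝ) < (l.prod : ℝ) := by
      have : 0 < l.prod := List.prod_pos fun q hq => (hprl q hq).pos
      exact_mod_cast this
    have e0 : ∀ R v, hkG h κ l R v = (if v = 0 then 0 else h ((val R v : ℝ) / (l.prod : ℝ)) *
        ((l.map (fun p => nul p R v)).prod : ℕ) * κ R v) := by
      intro R v
      unfold hkG hkH
      by_cases hv : v = 0
      · rw [if_pos hv, if_pos hv, zero_mul]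
      · rw [if_neg hv, if_neg hv]
    have e1 : TL (p :: l) (fun R => ∑' v : ℤ × ℤ, if v = 0 then 0 else h (val R v) * κ R v) Q =
        Tp p (fun R => ∑' v, hkG h κ l R v) Q := by
      change Tp p (TL l _) Q = _
      refine hk_congr hp (fun R hR => ?_) hQ
      rw [← ih' R hR]
      exact tsum_congr fun v => (e0 R v).symm
    have hbd : ∀ R ∈ FD Δ, ∀ v, |hkG h κ l R v| ≤
        |K| * ((l.map (fun p => p + 1)).prod : ℕ) * Real.exp (-((c / l.prod) * val R v)) := by
      intro R hR v
      unfold hkG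
      rw [abs_mul]
      refine le_trans (mul_le_of_le_one_right (abs_nonneg _) (hκ R v)) ?_
      unfold hkH
      by_cases hv : v = 0
      · rw [if_pos hv, abs_zero]
        positivity
      · rw [if_neg hv, abs_mul, Nat.abs_cast]
        have hpos : (0 : ℝ) < val R v := by
          exact_mod_cast ((hACT R 1 1 v).2.2.2.2.2 Δ hΔ hR).2 hv
        have h1 := hh ((val R v : ℝ) / (l.prod : ℝ)) (div_pos hpos hlp)
        have h2 : |h ((val R v : ℝ) / (l.prod : ℝ))| ≤
            |K| * Real.exp (-((c / l.prod) * val R v)) := by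
          have h3 : c * ((val R v : ℝ) / (l.prod : ℝ)) = (c / l.prod) * val R v := by ring
          rw [h3] at h1
          exact h1.trans (mul_le_mul_of_nonneg_right (le_abs_self K) (Real.exp_pos _).le)
        have h4 : (((l.map (fun p => nul p R v)).prod : ℕ) : ℝ) ≤
            (((l.map (fun p => p + 1)).prod : ℕ) : ℝ) := by
          exact_mod_cast hk_prod_le l R v
        calc _ ≤ |K| * Real.exp (-((c / l.prod) * val R v)) *
              (((l.map (fun p => p + 1)).prod : ℕ) : ℝ) :=
              mul_le_mul h2 h4 (Nat.cast_nonneg _) (by positivity)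
          _ = _ := by ring
    rw [e1, hHK1 Δ p _ (c / l.prod) (hkG h κ l) hΔ hp (div_pos hc hlp) hbd Q hQ]
    refine tsum_congr fun v => ?_
    set X : ℝ := if v = 0 then 0 else h ((val Q v : ℝ) / ((p :: l).prod : ℝ)) *
        ((l.map (fun p => nul p Q v)).prod : ℕ) with hX
    have t0 : (if (p : ℤ) ∣ Q.1 ∧ (p : ℤ) ∣ v.2 then
        hkG h κ l (Q.1 / p, Q.2.1, p * Q.2.2) (v.1, v.2 / p) else 0) =
        ((if (p : ℤ) ∣ Q.1 ∧ (p : ℤ) ∣ v.2 then 1 else 0 : ℕ) : ℝ) * (X * κ Q v) := by
      by_cases hA : (p : ℤ) ∣ Q.1 ∧ (p : ℤ) ∣ v.2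
      · rw [if_pos hA, if_pos hA, Nat.cast_one, one_mul]
        unfold hkG
        rw [(hstp Q hQ v).1 hA.1 hA.2]
        refine congrArg (fun x => x * κ Q v) ?_
        rw [hX]
        refine hk_term hp l Q _ v _ ?_ (fun q hq => ?_) ?_
        · obtain ⟨w, hw⟩ := hA.2
          have h5 : v.2 / p = w := by rw [hw]; exact Int.mul_ediv_cancel_left w hp0.ne'
          rw [h5]
          constructor
          · intro h6
            have h7 := Prod.mk.inj h6
            refine Prod.ext h7.1 ?_
            rw [hw, h7.2]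
            simp
          · intro h6
            rw [h6] at hw ⊢
            refine Prod.ext rfl ?_
            have h7 : (p : ℤ) * w = 0 := hw.symm
            rcases mul_eq_zero.1 h7 with h8 | h8
            · exact absurd h8 hp0.ne'
            · exact h8
        · have hqp : q ≠ p := fun h6 => hpl (h6 ▸ hq)
          exact ((hHK2 p q Q v hp (hprl q hq) hqp).1 hA.1 hA.2).1
        · by_cases hl : ∃ q : ℕ, q.Prime ∧ q ≠ p
          · obtain ⟨q, hq, hqp⟩ := hl
            exact ((hHK2 p q Q v hp hq hqp).1 hA.1 hA.2).2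
          · exfalso
            by_cases h2 : p = 2
            · exact hl ⟨3, Nat.prime_three, by omega⟩
            · exact hl ⟨2, Nat.prime_two, fun h => h2 h.symm⟩
      · rw [if_neg hA, if_neg hA, Nat.cast_zero, zero_mul]
    have t1 : ∑ j ∈ (Finset.range p).filter (fun j : ℕ =>
        (p : ℤ) ∣ Q.1 * (j : ℤ) ^ 2 + Q.2.1 * (j : ℤ) + Q.2.2 ∧ (p : ℤ) ∣ v.1 - j * v.2),
        hkG h κ l (p * Q.1, Q.2.1 + 2 * Q.1 * j,
          (Q.1 * (j : ℤ) ^ 2 + Q.2.1 * (j : ℤ) + Q.2.2) / p) ((v.1 - j * v.2) / p, v.2) =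
        (((Finset.range p).filter (fun j : ℕ =>
        (p : ℤ) ∣ Q.1 * (j : ℤ) ^ 2 + Q.2.1 * (j : ℤ) + Q.2.2 ∧
          (p : ℤ) ∣ v.1 - j * v.2)).card : ℝ) * (X * κ Q v) := by
      refine Eq.trans (Finset.sum_congr rfl (g := fun _ => X * κ Q v) fun j hj => ?_)
        (by rw [Finset.sum_const, nsmul_eq_mul])
      obtain ⟨-, hj1, hj2⟩ := Finset.mem_filter.1 hj
      unfold hkG
      rw [(hstp Q hQ v).2 j hj1 hj2]
      refine congrArg (fun x => x * κ Q v) ?_
      rw [hX]
      refine hk_term hp l Q _ v _ ?_ (fun q hq => ?_) ?_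
      · obtain ⟨w, hw⟩ := hj2
        have h5 : (v.1 - j * v.2) / p = w := by rw [hw]; exact Int.mul_ediv_cancel_left w hp0.ne'
        rw [h5]
        constructor
        · intro h6
          have h7 := Prod.mk.inj h6
          refine Prod.ext ?_ h7.2
          rw [h7.1, h7.2] at hw
          have h8 : v.1 = 0 := by linarith
          exact h8
        · intro h6
          rw [h6] at hw ⊢
          refine Prod.ext ?_ rfl
          have h7 : (p : ℤ) * w = 0 := by
            rw [← hw]
            simp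
          rcases mul_eq_zero.1 h7 with h8 | h8
          · exact absurd h8 hp0.ne'
          · exact h8
      · have hqp : q ≠ p := fun h6 => hpl (h6 ▸ hq)
        exact ((hHK2 p q Q v hp (hprl q hq) hqp).2 j hj1 hj2).1
      · by_cases hl : ∃ q : ℕ, q.Prime ∧ q ≠ p
        · obtain ⟨q, hq, hqp⟩ := hl
          exact ((hHK2 p q Q v hp hq hqp).2 j hj1 hj2).2
        · exfalso
          by_cases h2 : p = 2
          · exact hl ⟨3, Nat.prime_three, by omega⟩
          · exact hl ⟨2, Nat.prime_two, fun h => h2 h.symm⟩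
    have e5 : ((p :: l).map (fun p => nul p Q v)).prod =
        nul p Q v * (l.map (fun p => nul p Q v)).prod := by
      rw [List.map_cons, List.prod_cons]
    rw [t0, t1, ← add_mul, ← Nat.cast_add, hHK3 p Q v hp, hX, e5, Nat.cast_mul]
    by_cases hv : v = 0
    · rw [if_pos hv, if_pos hv, zero_mul, mul_zero]
    · rw [if_neg hv, if_neg hv]
      ring

end Pool.Agent.H69.CFU
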