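import Pool.Agent.H65.CF.T7

/-!
# Complete family, section 7: the class number and the Euler product in mean square (row HLQ)
-/

set_option autoImplicit false

open MeasureTheory Set Filter NumberField
open scoped Real nonZeroDivisors

namespace Pool.Agent.H69.CFH

open Pool.Agent.H31.CN Pool.Agent.H65.AD Pool.Agent.H65.CF

theorem mem_fd {Y : ℝ} {D : ℕ} (h : D ∈ fd Y) : 5 ≤ D ∧ D ≤ ⌊Y⌋₊ ∧ Fd D := by
  classical
  unfold fd at h
  rw [Finset.mem_filter, Finset.mem_Icc] at h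
  exact ⟨h.1.1, h.1.2, h.2⟩

theorem mem_fd' {Y : ℝ} {D : ℕ} (h1 : 5 ≤ D) (h2 : D ≤ ⌊Y⌋₊) (h3 : Fd D) : D ∈ fd Y := by
  classical
  unfold fd
  rw [Finset.mem_filter, Finset.mem_Icc]
  exact ⟨⟨h1, h2⟩, h3⟩

theorem fd_mono {X Y : ℝ} (h : X ≤ Y) : fd X ⊆ fd Y := by
  intro D hD
  obtain ⟨h1, h2, h3⟩ := mem_fd hD
  exact mem_fd' h1 (h2.trans (Nat.floor_mono h)) h3

/-- one halving step -/
theorem fd_half {X : ℝ} (hX : 0 < X) (f : ℕ → ℝ) (hf : ∀ D, 0 ≤ f D) :
    ∑ D ∈ fd X, f D ≤ ∑ D ∈ fd (X / 2), f D + ∑ D ∈ (fd X).filter (fun D : ℕ => X / 2 < D), f D := by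
  classical
  have h1 : fd X ⊆ fd (X / 2) ∪ (fd X).filter (fun D : ℕ => X / 2 < D) := by
    intro D hD
    obtain ⟨h1, h2, h3⟩ := mem_fd hD
    rw [Finset.mem_union, Finset.mem_filter]
    rcases lt_or_ge (X / 2) (D : ℝ) with h | h
    · exact Or.inr ⟨hD, h⟩
    · exact Or.inl (mem_fd' h1 (Nat.le_floor h) h3)
  calc ∑ D ∈ fd X, f D ≤ ∑ D ∈ fd (X / 2) ∪ (fd X).filter (fun D : ℕ => X / 2 < D), f D :=
        Finset.sum_le_sum_of_subset_of_nonneg h1 (fun i _ _ => hf i)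
    _ ≤ _ := by
        rw [← Finset.sum_union_inter]
        have : 0 ≤ ∑ D ∈ fd (X / 2) ∩ (fd X).filter (fun D : ℕ => X / 2 < D), f D :=
          Finset.sum_nonneg (fun i _ => hf i)
        linarith

theorem pf_HLQ (hHLK : T_HLK) (hHSY : T_HSY) (hLRB : T_LRB) : T_HLQ := by
  obtain ⟨C, hC, hK⟩ := hHLK
  obtain ⟨C', hC', hS⟩ := hHSY
  obtain ⟨c, hc, hL⟩ := hLRB
  refine ⟨3 * C, by positivity, ?_⟩
  intro R hR
  obtain ⟨X₀, hX₀⟩ := hK R hR
  have hlog : 0 < Real.log R := Real.log_pos (by exact_mod_cast hR)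
  have hR0 : (0 : ℝ) < R := by
    have : 0 < R := by omega
    exact_mod_cast this
  set A : ℝ := C * Real.log R ^ 2 / R with hA
  have hA0 : 0 < A := by positivity
  set X₁ : ℝ := max X₀ 1 with hX₁
  have hX₁0 : X₀ ≤ X₁ := le_max_left _ _
  have hX₁1 : 1 ≤ X₁ := le_max_right _ _
  set M : ℝ := ∑ D ∈ fd X₁, (2 * (C' * (D : ℝ)) ^ 2 + 2 * (c⁻¹ * Real.log R) ^ 2) with hM
  have hM0 : 0 ≤ M := Finset.sum_nonneg (fun i _ => by positivity)
  refine ⟨M / A, ?_⟩
  intro Y hY K _ _ hKD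
  have hf0 : ∀ D : ℕ, 0 ≤ ((classNumber (K D) : ℝ) / Real.sqrt D - LR R D / π) ^ 2 :=
    fun D => sq_nonneg _
  -- the bound for each `D`
  have hfb : ∀ D ∈ fd Y, ((classNumber (K D) : ℝ) / Real.sqrt D - LR R D / π) ^ 2 ≤
      2 * (C' * (D : ℝ)) ^ 2 + 2 * (c⁻¹ * Real.log R) ^ 2 := by
    intro D hD
    obtain ⟨h1, h2, h3⟩ := mem_fd hD
    obtain ⟨h4, h5⟩ := hKD D hD
    have hD5 : (5 : ℝ) ≤ D := by exact_mod_cast h1
    have hs2 : (2 : ℝ) ≤ Real.sqrt D := by
      apply Real.le_sqrt_of_sq_le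
      linarith
    have h6 := (hS D (K D) (by omega) h3 h4 h5 2 le_rfl hs2).2
    have h7 := hL R D hR
    have hh0 : (0 : ℝ) ≤ classNumber (K D) := Nat.cast_nonneg _
    have ha : (classNumber (K D) : ℝ) / Real.sqrt D ≤ C' * D := by
      refine le_trans ?_ h6
      apply div_le_self hh0
      linarith
    have ha0 : 0 ≤ (classNumber (K D) : ℝ) / Real.sqrt D := by positivity
    have hL0 : 0 ≤ LR R D := le_trans (by positivity) h7.1
    have hb0 : 0 ≤ LR R D / π := by positivity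
    have hb : LR R D / π ≤ c⁻¹ * Real.log R := by
      refine le_trans ?_ h7.2
      apply div_le_self hL0
      linarith [Real.pi_gt_three]
    have e1 : ((classNumber (K D) : ℝ) / Real.sqrt D - LR R D / π) ^ 2 ≤
        2 * ((classNumber (K D) : ℝ) / Real.sqrt D) ^ 2 + 2 * (LR R D / π) ^ 2 := by
      nlinarith [sq_nonneg ((classNumber (K D) : ℝ) / Real.sqrt D + LR R D / π)]
    have e2 : ((classNumber (K D) : ℝ) / Real.sqrt D) ^ 2 ≤ (C' * D) ^ 2 :=
      pow_le_pow_left₀ ha0 ha 2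
    have e3 : (LR R D / π) ^ 2 ≤ (c⁻¹ * Real.log R) ^ 2 :=
      pow_le_pow_left₀ hb0 hb 2
    linarith
  -- the induction
  have hind : ∀ n : ℕ, ∀ X : ℝ, 0 < X → X ≤ Y → X ≤ X₁ * 2 ^ n →
      ∑ D ∈ fd X, ((classNumber (K D) : ℝ) / Real.sqrt D - LR R D / π) ^ 2 ≤ 2 * A * X + M := by
    have hbase : ∀ X : ℝ, 0 < X → X ≤ Y → X ≤ X₁ →
        ∑ D ∈ fd X, ((classNumber (K D) : ℝ) / Real.sqrt D - LR R D / π) ^ 2 ≤
          2 * A * X + M := by
      intro X hX0 hXY hX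
      calc ∑ D ∈ fd X, ((classNumber (K D) : ℝ) / Real.sqrt D - LR R D / π) ^ 2
          ≤ ∑ D ∈ fd X, (2 * (C' * (D : ℝ)) ^ 2 + 2 * (c⁻¹ * Real.log R) ^ 2) :=
            Finset.sum_le_sum (fun D hD => hfb D (fd_mono hXY hD))
        _ ≤ M := Finset.sum_le_sum_of_subset_of_nonneg (fd_mono hX)
            (fun i _ _ => by positivity)
        _ ≤ 2 * A * X + M := by
            have : 0 ≤ 2 * A * X := by positivity
            linarith
    intro n
    induction n with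
    | zero =>
      intro X hX0 hXY hX
      exact hbase X hX0 hXY (by simpa using hX)
    | succ n ih =>
      intro X hX0 hXY hX
      rcases le_or_gt X X₁ with h | h
      · exact hbase X hX0 hXY h
      · have h1 := ih (X / 2) (by positivity) (by linarith) (by
          rw [pow_succ] at hX
          linarith)
        have h2 := hX₀ X (by linarith) K (fun D hD => hKD D (fd_mono hXY hD))
        have h3 := fd_half hX0
          (fun D => ((classNumber (K D) : ℝ) / Real.sqrt D - LR R D / π) ^ 2) hf0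
        linarith
  rcases le_or_gt Y 0 with hY0 | hY0
  · have hfd : fd Y = ∅ := by
      apply Finset.eq_empty_of_forall_notMem
      intro D hD
      obtain ⟨h1, h2, -⟩ := mem_fd hD
      rw [Nat.floor_of_nonpos hY0] at h2
      omega
    have hM' : 0 ≤ M / A := by positivity
    have hY' : Y = 0 := le_antisymm hY0 (hM'.trans hY)
    rw [hfd, hY']
    simp
  · obtain ⟨n, hn⟩ := pow_unbounded_of_one_lt (Y / X₁) (by norm_num : (1 : ℝ) < 2)
    have h1 := hind n Y hY0 le_rfl (by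
      rw [div_lt_iff₀ (by linarith)] at hn
      linarith)
    have h2 : M ≤ A * Y := by
      rw [div_le_iff₀ hA0] at hY
      linarith
    have h3 : 3 * C * Real.log R ^ 2 / R * Y = 3 * (A * Y) := by
      rw [hA]
      ring
    rw [h3]
    linarith

end Pool.Agent.H69.CFH
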